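import Pool.Agent.H624CA.Ex

/-!
Passage to blocks of length seven, and the data of the obstruction for the example.
-/

namespace Pool.Agent.H624CA

variable {S : Type}

/-- cut a configuration into blocks of length seven -/
def Bl (x : ℤ → S) : ℤ → (Fin 7 → S) := fun k j => x (7 * k + (j : ℕ))

/-- join blocks -/
def Bi (X : ℤ → (Fin 7 → S)) : ℤ → S := fun i =>
  X (i / 7) ⟨(i % 7).toNat, by omega⟩

/-- the map on blocks -/
def hat (f : (ℤ → S) → (ℤ → S)) : (ℤ → (Fin 7 → S)) → (ℤ → (Fin 7 → S)) := fun X => Bl (f (Bi X))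

lemma Bi_apply (X : ℤ → (Fin 7 → S)) (k : ℤ) (j : Fin 7) : Bi X (7 * k + (j : ℕ)) = X k j := by
  unfold Bi
  have h1 : (7 * k + ((j : ℕ) : ℤ)) / 7 = k := by have := j.2; omega
  have h2 : (⟨((7 * k + ((j : ℕ) : ℤ)) % 7).toNat, by omega⟩ : Fin 7) = j := by
    apply Fin.ext
    show ((7 * k + ((j : ℕ) : ℤ)) % 7).toNat = j
    have := j.2
    omega
  rw [h1, h2]

lemma Bl_Bi (X : ℤ → (Fin 7 → S)) : Bl (Bi X) = X := by
  funext k j
  exact Bi_apply X k j

lemma Bi_Bl (x : ℤ → S) : Bi (Bl x) = x := by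
  funext i
  unfold Bi Bl
  simp only
  congr 1
  omega

lemma Bi_inj {X Y : ℤ → (Fin 7 → S)} (h : Bi X = Bi Y) : X = Y := by
  rw [← Bl_Bi X, h, Bl_Bi]

lemma Bl_inj {x y : ℤ → S} (h : Bl x = Bl y) : x = y := by
  rw [← Bi_Bl x, h, Bi_Bl]

lemma hat_id : hat (id : (ℤ → S) → (ℤ → S)) = id := by
  funext X; exact Bl_Bi X

lemma hat_comp (g h : (ℤ → S) → (ℤ → S)) : hat (g ∘ h) = hat g ∘ hat h := by
  funext X
  simp only [hat, Function.comp, Bi_Bl]

lemma hat_loc {f : (ℤ → S) → (ℤ → S)} {r : ℤ} (L : Loc f r) : Loc (hat f) (r + 1) := by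
  have hr := L.1
  refine ⟨by omega, fun X Y k hXY => ?_⟩
  funext j
  refine L.2 _ _ _ fun t h1 h2 => ?_
  unfold Bi
  have := j.2
  rw [hXY (t / 7) (by omega) (by omega)]

lemma hat_comm {f : (ℤ → S) → (ℤ → S)} (C : Comm f) : Comm (hat f) := by
  intro X
  have h1 : Bi (shift X) = fun i => Bi X (i + 7) := by
    funext i
    unfold Bi shift
    have e1 : (i + 7) / 7 = i / 7 + 1 := by omega
    have e2 : (i + 7) % 7 = i % 7 := by omega
    simp only [e1, e2]
  funext k j
  simp only [hat]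
  rw [h1, C.int]
  unfold Bl shift
  ring_nf

lemma hat_surj {f : (ℤ → S) → (ℤ → S)} (H : Function.Surjective f) :
    Function.Surjective (hat f) := by
  intro Y
  obtain ⟨x, hx⟩ := H (Bi Y)
  exact ⟨Bl x, by simp only [hat, Bi_Bl, hx, Bl_Bi]⟩

lemma hat_right {f : (ℤ → S) → (ℤ → S)} (H : RightClosing f) : RightClosing (hat f) := by
  rintro X Y ⟨N, hN⟩ h
  refine Bi_inj (H _ _ ⟨7 * N + 6, fun i hi => ?_⟩ (Bl_inj h))
  unfold Bi
  rw [hN (i / 7) (by omega)]

lemma hat_left {f : (ℤ → S) → (ℤ → S)} (H : LeftClosing f) : LeftClosing (hat f) := by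
  rintro X Y ⟨N, hN⟩ h
  refine Bi_inj (H _ _ ⟨7 * N, fun i hi => ?_⟩ (Bl_inj h))
  unfold Bi
  rw [hN (i / 7) (by omega)]

section
variable {s0 s1 : S}

/-- the code word as a block letter -/
noncomputable def Wc (s0 s1 : S) (c : Fin 5) : Fin 7 → S := fun j => W s0 s1 c j

lemma Wc_inj (h01 : s0 ≠ s1) {c d : Fin 5} (h : Wc s0 s1 c = Wc s0 s1 d) : c = d :=
  bit_inj c d fun j => (W_eq_iff h01).1 (congrFun h j)

lemma Bl_eq {x : ℤ → S} {k : ℤ} {c : Fin 5} : Bl x k = Wc s0 s1 c ↔ Is s0 s1 x (7 * k) c := by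
  constructor
  · intro h j hj
    exact congrFun h ⟨j, hj⟩
  · intro h
    funext j
    exact h j j.2

lemma Bi_Is {X : ℤ → (Fin 7 → S)} {k : ℤ} {c : Fin 5} :
    Is s0 s1 (Bi X) (7 * k) c ↔ X k = Wc s0 s1 c := by
  rw [← Bl_eq, Bl_Bi]

/-- a run of zeros in the image -/
lemma run (h01 : s0 ≠ s1) {X : ℤ → (Fin 7 → S)} {k : ℤ}
    (h : hat (F s0 s1) X k = Wc s0 s1 0) :
    ∃ e, X k = Wc s0 s1 e ∧ st s0 s1 (Bi X) (7 * k) = e ∧ st s0 s1 (Bi X) (7 * (k + 1)) = e := by
  have h1 : Is s0 s1 (F s0 s1 (Bi X)) (7 * k) 0 := Bl_eq.1 h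
  rw [Is_F h01] at h1
  obtain ⟨e, he, ho⟩ := h1
  have hb := (blk_some h01).2 he
  have e7 : 7 * (k + 1) = 7 * k + 7 := by ring
  have e8 : 7 * k + 7 - 7 = 7 * k := by ring
  refine ⟨e, Bi_Is.1 he, ?_⟩
  unfold out at ho
  rw [e7]
  unfold st at ho ⊢
  rw [e8] at ho ⊢
  simp only [hb] at ho ⊢
  exact tab_zero _ e _ ho

/-- the tile between two known letters -/
lemma st_two (h01 : s0 ≠ s1) {X : ℤ → (Fin 7 → S)} {k : ℤ} {a b : Fin 5}
    (h1 : X k = Wc s0 s1 a) (h2 : X (k + 1) = Wc s0 s1 b) :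
    st s0 s1 (Bi X) (7 * (k + 1)) = tile (ps a) (rd b) := by
  have hb1 := (blk_some h01).2 (Bi_Is.2 h1)
  have hb2 := (blk_some h01).2 (Bi_Is.2 h2)
  have e8 : 7 * (k + 1) - 7 = 7 * k := by ring
  unfold st
  rw [e8, hb1, hb2]
  rfl

lemma st_left (h01 : s0 ≠ s1) {X : ℤ → (Fin 7 → S)} {k : ℤ} {a : Fin 5}
    (h1 : X k = Wc s0 s1 a) : ∃ i1, st s0 s1 (Bi X) (7 * (k + 1)) = tile (ps a) i1 := by
  have hb1 := (blk_some h01).2 (Bi_Is.2 h1)
  have e8 : 7 * (k + 1) - 7 = 7 * k := by ring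
  unfold st
  rw [e8, hb1]
  exact ⟨_, rfl⟩

lemma st_right (h01 : s0 ≠ s1) {X : ℤ → (Fin 7 → S)} {k : ℤ} {b : Fin 5}
    (h2 : X k = Wc s0 s1 b) : ∃ j0, st s0 s1 (Bi X) (7 * k) = tile j0 (rd b) := by
  have hb2 := (blk_some h01).2 (Bi_Is.2 h2)
  unfold st
  rw [hb2]
  exact ⟨_, rfl⟩

lemma hat_F (h01 : s0 ≠ s1) {X : ℤ → (Fin 7 → S)} {k : ℤ} {e : Fin 5} (h : X k = Wc s0 s1 e) :
    hat (F s0 s1) X k = Wc s0 s1 (tab (st s0 s1 (Bi X) (7 * k)) (st s0 s1 (Bi X) (7 * (k + 1))) e) := by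
  have e7 : 7 * (k + 1) = 7 * k + 7 := by ring
  rw [e7]
  exact Bl_eq.2 (Is_F_of h01 (Bi_Is.2 h))

lemma hat_F_some (h01 : s0 ≠ s1) {X : ℤ → (Fin 7 → S)} {k : ℤ} {c : Fin 5}
    (h : hat (F s0 s1) X k = Wc s0 s1 c) : ∃ e, X k = Wc s0 s1 e ∧
      tab (st s0 s1 (Bi X) (7 * k)) (st s0 s1 (Bi X) (7 * (k + 1))) e = c := by
  have h1 : Is s0 s1 (F s0 s1 (Bi X)) (7 * k) c := Bl_eq.1 h
  rw [Is_F h01] at h1
  obtain ⟨e, he, ho⟩ := h1
  have e7 : 7 * (k + 1) = 7 * k + 7 := by ring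
  rw [e7]
  exact ⟨e, Bi_Is.1 he, ho⟩

theorem data (h01 : s0 ≠ s1) :
    Data (hat (F s0 s1)) (Wc s0 s1 0) (Set.range (Wc s0 s1)) where
  A0 := by
    rintro _ ⟨p, rfl⟩
    funext k
    have h1 : ∀ k, (cst (Wc s0 s1 p)) k = Wc s0 s1 p := fun _ => rfl
    have h2 : ∀ k, st s0 s1 (Bi (cst (Wc s0 s1 p))) (7 * k) = p := by
      intro k
      have := st_two h01 (X := cst (Wc s0 s1 p)) (k := k - 1) (a := p) (b := p) rfl rfl
      rw [sub_add_cancel] at this
      rw [this, tile_self]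
    rw [hat_F h01 (h1 k), h2, h2, tab_self]
    rfl
  A1 := by
    intro X a b hab h
    obtain ⟨e, he, hs, hs'⟩ := run h01 (h a le_rfl hab)
    refine ⟨Wc s0 s1 e, ⟨e, rfl⟩, ?_⟩
    have key : ∀ n : ℕ, a + n ≤ b → st s0 s1 (Bi X) (7 * (a + n)) = e := by
      intro n
      induction n with
      | zero => intro _; simpa using hs
      | succ n ih =>
        intro hn
        have h1 := ih (by push_cast at hn; omega)
        obtain ⟨e', _, h2, h3⟩ := run h01 (h (a + n) (by omega) (by push_cast at hn; omega))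
        have e4 : a + ((n + 1 : ℕ) : ℤ) = a + n + 1 := by push_cast; ring
        rw [e4, h3, ← h2, h1]
    intro i h1 h2
    obtain ⟨e', he', h3, _⟩ := run h01 (h i h1 h2)
    have h4 := key (i - a).toNat (by omega)
    have e5 : a + (((i - a).toNat : ℕ) : ℤ) = i := by omega
    rw [e5, h3] at h4
    rw [he', h4]
  A2R := by
    have main : ∀ p q : Fin 5, RowSep p q → ∃ x, ∃ u ∈ Set.range (Wc s0 s1), RA x u ∧
        LA x (Wc s0 s1 p) ∧ ¬ ∃ y, LA y (Wc s0 s1 q) ∧ hat (F s0 s1) y = hat (F s0 s1) x := by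
      rintro p q ⟨e, p', hp1, hp2, hsep⟩
      set X : ℤ → (Fin 7 → S) := fun k =>
        if k < 0 then Wc s0 s1 p else if k = 0 then Wc s0 s1 e else Wc s0 s1 p' with hX
      have X1 : ∀ k, k < 0 → X k = Wc s0 s1 p := fun k hk => by simp only [hX, hk, if_true]
      have X2 : X 0 = Wc s0 s1 e := by simp [hX]
      have X3 : ∀ k, 0 < k → X k = Wc s0 s1 p' := fun k hk => by
        have h1 : ¬ k < 0 := by omega
        have h2 : k ≠ 0 := by omega
        simp only [hX, h1, h2, if_false]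
      refine ⟨X, _, ⟨p', rfl⟩, ⟨1, fun k hk => X3 k (by omega)⟩, ⟨-1, fun k hk => X1 k (by omega)⟩, ?_⟩
      rintro ⟨Y, ⟨N, hY⟩, hXY⟩
      have s1' : ∀ k, k < 0 → st s0 s1 (Bi X) (7 * k) = p := by
        intro k hk
        have := st_two h01 (k := k - 1) (X1 (k - 1) (by omega)) (by rw [sub_add_cancel]; exact X1 k hk)
        rw [sub_add_cancel] at this
        rw [this, tile_self]
      have s2' : st s0 s1 (Bi X) (7 * 0) = p := by
        have := st_two h01 (k := -1) (X1 (-1) (by omega)) (by rw [neg_add_cancel]; exact X2)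
        rw [neg_add_cancel] at this
        rw [this, hp1]
      have s3' : st s0 s1 (Bi X) (7 * (0 + 1)) = p' := by
        rw [st_two h01 (k := 0) X2 (X3 (0 + 1) (by omega)), hp2]
      have f1 : ∀ k, k < 0 → hat (F s0 s1) X k = Wc s0 s1 0 := by
        intro k hk
        rw [hat_F h01 (X1 k hk), s1' k hk]
        have : st s0 s1 (Bi X) (7 * (k + 1)) = p := by
          rcases (show k + 1 < 0 ∨ k + 1 = 0 by omega) with h | h
          · exact s1' _ h
          · rw [h]; exact s2'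
        rw [this, tab_self]
      have f2 : hat (F s0 s1) X 0 = Wc s0 s1 (tab p p' e) := by
        rw [hat_F h01 X2, s2', s3']
      -- now Y
      have y1 : ∀ n : ℕ, st s0 s1 (Bi Y) (7 * (min N (-1) + n)) = q ∨ 0 < min N (-1) + n := by
        intro n
        induction n with
        | zero =>
          left
          obtain ⟨e', h1, h2, _⟩ := run h01 (X := Y) (k := min N (-1)) (by
            rw [hXY]; exact f1 _ (by have := min_le_right N (-1); omega))
          have h3 := hY (min N (-1)) (min_le_left _ _)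
          rw [h3] at h1
          have := Wc_inj h01 h1
          simp only [Nat.cast_zero, add_zero]
          rw [h2, this]
        | succ n ih =>
          by_cases hpos : 0 < min N (-1) + ((n + 1 : ℕ) : ℤ)
          · exact Or.inr hpos
          · left
            have h0 : min N (-1) + (n : ℤ) < 0 := by push_cast at hpos; omega
            have h1 : st s0 s1 (Bi Y) (7 * (min N (-1) + n)) = q := by
              rcases ih with h | h
              · exact h
              · omega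
            obtain ⟨e', _, h2, h3⟩ := run h01 (X := Y) (k := min N (-1) + n) (by
              rw [hXY]; exact f1 _ h0)
            have e4 : min N (-1) + ((n + 1 : ℕ) : ℤ) = min N (-1) + n + 1 := by push_cast; ring
            rw [e4, h3, ← h2, h1]
      have y2 : ∀ k : ℤ, min N (-1) ≤ k → k ≤ 0 → st s0 s1 (Bi Y) (7 * k) = q := by
        intro k h1 h2
        have := y1 (k - min N (-1)).toNat
        have e5 : min N (-1) + (((k - min N (-1)).toNat : ℕ) : ℤ) = k := by omega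
        rw [e5] at this
        rcases this with h | h
        · exact h
        · omega
      have y3 : Y (-1) = Wc s0 s1 q := by
        obtain ⟨e', h1, h2, _⟩ := run h01 (X := Y) (k := -1) (by rw [hXY]; exact f1 _ (by omega))
        rw [h1, ← h2, y2 (-1) (min_le_right _ _) (by omega)]
      obtain ⟨e', h1, h2⟩ := hat_F_some h01 (X := Y) (k := 0) (c := tab p p' e) (by rw [hXY]; exact f2)
      have h3 : st s0 s1 (Bi Y) (7 * 0) = q := y2 0 (by have := min_le_right N (-1); omega) le_rfl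
      have h4 : tile (ps q) (rd e') = q := by
        have := st_two h01 (k := -1) y3 (by rw [neg_add_cancel]; exact h1)
        rw [neg_add_cancel] at this
        rw [← this, h3]
      obtain ⟨i1, h5⟩ := st_left h01 (k := 0) h1
      rw [h3, h5] at h2
      exact hsep e' i1 h4 h2
    rintro _ ⟨p, rfl⟩ _ ⟨q, rfl⟩ hne
    have hpq : p ≠ q := fun h => hne (by rw [h])
    rcases row_sep p q hpq with h | h
    · obtain ⟨x, u, hu, h1, h2, h3⟩ := main p q h
      exact ⟨x, u, hu, h1, Or.inl ⟨h2, h3⟩⟩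
    · obtain ⟨x, u, hu, h1, h2, h3⟩ := main q p h
      exact ⟨x, u, hu, h1, Or.inr ⟨h2, h3⟩⟩
  A2L := by
    have main : ∀ p q : Fin 5, ColSep p q → ∃ x, ∃ u ∈ Set.range (Wc s0 s1), LA x u ∧
        RA x (Wc s0 s1 p) ∧ ¬ ∃ y, RA y (Wc s0 s1 q) ∧ hat (F s0 s1) y = hat (F s0 s1) x := by
      rintro p q ⟨e, p', hp1, hp2, hsep⟩
      set X : ℤ → (Fin 7 → S) := fun k =>
        if 0 < k then Wc s0 s1 p else if k = 0 then Wc s0 s1 e else Wc s0 s1 p' with hX
      have X1 : ∀ k, 0 < k → X k = Wc s0 s1 p := fun k hk => by simp only [hX, hk, if_true]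
      have X2 : X 0 = Wc s0 s1 e := by simp [hX]
      have X3 : ∀ k, k < 0 → X k = Wc s0 s1 p' := fun k hk => by
        have h1 : ¬ 0 < k := by omega
        have h2 : k ≠ 0 := by omega
        simp only [hX, h1, h2, if_false]
      refine ⟨X, _, ⟨p', rfl⟩, ⟨-1, fun k hk => X3 k (by omega)⟩, ⟨1, fun k hk => X1 k (by omega)⟩, ?_⟩
      rintro ⟨Y, ⟨N, hY⟩, hXY⟩
      have s1' : ∀ k, 1 < k → st s0 s1 (Bi X) (7 * k) = p := by
        intro k hk
        have := st_two h01 (k := k - 1) (X1 (k - 1) (by omega)) (by rw [sub_add_cancel]; exact X1 k (by omega))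
        rw [sub_add_cancel] at this
        rw [this, tile_self]
      have s2' : st s0 s1 (Bi X) (7 * (0 + 1)) = p := by
        rw [st_two h01 (k := 0) X2 (X1 (0 + 1) (by omega)), hp2]
      have s3' : st s0 s1 (Bi X) (7 * 0) = p' := by
        have := st_two h01 (k := -1) (X3 (-1) (by omega)) (by rw [neg_add_cancel]; exact X2)
        rw [neg_add_cancel] at this
        rw [this, hp1]
      have s4' : ∀ k, 0 < k → st s0 s1 (Bi X) (7 * k) = p := by
        intro k hk
        rcases (show 1 < k ∨ k = 0 + 1 by omega) with h | h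
        · exact s1' _ h
        · rw [h]; exact s2'
      have f1 : ∀ k, 0 < k → hat (F s0 s1) X k = Wc s0 s1 0 := by
        intro k hk
        rw [hat_F h01 (X1 k hk), s4' k hk, s4' (k + 1) (by omega), tab_self]
      have f2 : hat (F s0 s1) X 0 = Wc s0 s1 (tab p' p e) := by
        rw [hat_F h01 X2, s2', s3']
      -- now Y; tiles at positions from 1 to far right are q
      have hM : N ≤ max N 1 ∧ 1 ≤ max N 1 := ⟨le_max_left _ _, le_max_right _ _⟩
      have y1 : ∀ n : ℕ, 1 ≤ max N 1 - n → st s0 s1 (Bi Y) (7 * (max N 1 - n)) = q := by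
        intro n
        induction n with
        | zero =>
          intro _
          obtain ⟨e', h1, h2, _⟩ := run h01 (X := Y) (k := max N 1) (by
            rw [hXY]; exact f1 _ (by omega))
          have h3 := hY (max N 1) (le_max_left _ _)
          rw [h3] at h1
          have := Wc_inj h01 h1
          simp only [Nat.cast_zero, sub_zero]
          rw [h2, this]
        | succ n ih =>
          intro hpos
          have h1 := ih (by push_cast at hpos; omega)
          obtain ⟨e', _, h2, h3⟩ := run h01 (X := Y) (k := max N 1 - ((n + 1 : ℕ) : ℤ)) (by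
            rw [hXY]; exact f1 _ (by omega))
          have e4 : max N 1 - ((n + 1 : ℕ) : ℤ) + 1 = max N 1 - n := by push_cast; ring
          rw [e4] at h3
          rw [h2, ← h3, h1]
      have y2 : st s0 s1 (Bi Y) (7 * (0 + 1)) = q := by
        have := y1 (max N 1 - 1).toNat (by omega)
        have e5 : max N 1 - (((max N 1 - 1).toNat : ℕ) : ℤ) = 0 + 1 := by omega
        rw [e5] at this
        exact this
      have y3 : Y (0 + 1) = Wc s0 s1 q := by
        obtain ⟨e', h1, h2, _⟩ := run h01 (X := Y) (k := 0 + 1) (by rw [hXY]; exact f1 _ (by omega))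
        rw [h1, ← h2, y2]
      obtain ⟨e', h1, h2⟩ := hat_F_some h01 (X := Y) (k := 0) (c := tab p' p e) (by rw [hXY]; exact f2)
      have h4 : tile (ps e') (rd q) = q := by
        rw [← st_two h01 (k := 0) h1 y3, y2]
      obtain ⟨j0, h5⟩ := st_right h01 (k := 0) h1
      rw [y2, h5] at h2
      exact hsep e' j0 h4 h2
    rintro _ ⟨p, rfl⟩ _ ⟨q, rfl⟩ hne
    have hpq : p ≠ q := fun h => hne (by rw [h])
    rcases col_sep p q hpq with h | h
    · obtain ⟨x, u, hu, h1, h2, h3⟩ := main p q h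
      exact ⟨x, u, hu, h1, Or.inl ⟨h2, h3⟩⟩
    · obtain ⟨x, u, hu, h1, h2, h3⟩ := main q p h
      exact ⟨x, u, hu, h1, Or.inr ⟨h2, h3⟩⟩

end

lemma closing_surj [Finite S] {g : (ℤ → S) → (ℤ → S)} (hg : IsCA g)
    (hc : RightClosing g ∨ LeftClosing g) : Function.Surjective g := by
  obtain ⟨r, L⟩ := loc_of_cont hg.cont hg.comm
  refine myhill L hg.comm fun x y ⟨N, hN⟩ hxy => ?_
  rcases hc with h | h
  · exact h x y ⟨-N, fun i hi => hN i (Or.inl hi)⟩ hxy
  · exact h x y ⟨N, fun i hi => hN i (Or.inr hi)⟩ hxy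

lemma comp_of_lev [Finite S] : ∀ (k : ℕ) (b : Bool) (f : (ℤ → S) → (ℤ → S)), f ∈ Lev S k b →
    Comp (hat f) := by
  intro k
  induction k with
  | zero =>
    intro b f hf
    have : f = id := by cases b <;> exact hf
    rw [this, hat_id]
    exact Comp.id
  | succ k ih =>
    intro b f hf
    cases b with
    | true =>
      obtain ⟨g, h, hg, hc, hh, rfl⟩ := hf
      obtain ⟨r, L⟩ := loc_of_cont hg.cont hg.comm
      rw [hat_comp]
      exact Comp.step _ _ ⟨_, hat_loc L⟩ (hat_comm hg.comm)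
        (hat_surj (closing_surj hg (Or.inr hc))) (Or.inr (hat_left hc)) (ih _ _ hh)
    | false =>
      obtain ⟨g, h, hg, hc, hh, rfl⟩ := hf
      obtain ⟨r, L⟩ := loc_of_cont hg.cont hg.comm
      rw [hat_comp]
      exact Comp.step _ _ ⟨_, hat_loc L⟩ (hat_comm hg.comm)
        (hat_surj (closing_surj hg (Or.inl hc))) (Or.inl (hat_right hc)) (ih _ _ hh)

theorem exists_surjective_not_lev (S : Type) [Finite S] [Nontrivial S] :
    ∃ f : (ℤ → S) → (ℤ → S), IsCA f ∧ Function.Surjective f ∧ ∀ k b, f ∉ Lev S k b := by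
  obtain ⟨s0, s1, h01⟩ := exists_pair_ne S
  refine ⟨F s0 s1, ⟨cont_of_loc (F_loc h01), F_comm h01⟩, F_surj h01, fun k b hf => ?_⟩
  refine not_comp (data h01) ⟨0, rfl⟩ ⟨1, rfl⟩ (fun h => ?_) (comp_of_lev k b _ hf)
  have := Wc_inj h01 h
  exact absurd this (by decide)

end Pool.Agent.H624CA
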