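import Mathlib

/-!
Definitions: cellular automata on the full shift over the integers, one-sided closing cellular
automata, and the closing hierarchy.
-/

namespace Pool.Agent.H624CA

/-- The shift map on configurations: `shift x i = x (i + 1)`. -/
def shift {S : Type} (x : ℤ → S) : ℤ → S := fun i => x (i + 1)

/-- `f` is left-closing: there are no two different configurations that agree at all sufficiently
large positions and have the same image. -/
def LeftClosing {S : Type} (f : (ℤ → S) → (ℤ → S)) : Prop :=
  ∀ x y : ℤ → S, (∃ N : ℤ, ∀ i : ℤ, N ≤ i → x i = y i) → f x = f y → x = y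

/-- `f` is right-closing: there are no two different configurations that agree at all sufficiently
small positions and have the same image. -/
def RightClosing {S : Type} (f : (ℤ → S) → (ℤ → S)) : Prop :=
  ∀ x y : ℤ → S, (∃ N : ℤ, ∀ i : ℤ, i ≤ N → x i = y i) → f x = f y → x = y

/-- `f` is a cellular automaton on the full shift over `S`: continuous for the product of the
discrete topologies, and commuting with the shift. -/
structure IsCA {S : Type} (f : (ℤ → S) → (ℤ → S)) : Prop where
  cont : @Continuous (ℤ → S) (ℤ → S) (@Pi.topologicalSpace ℤ (fun _ => S) (fun _ => ⊥))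
    (@Pi.topologicalSpace ℤ (fun _ => S) (fun _ => ⊥)) f
  comm : ∀ x, f (shift x) = shift (f x)

/-- The closing hierarchy of the problem. `Lev S k true` is the level `L^cl_k` and `Lev S k false`
is the level `R^cl_k`: both are `{id}` for `k = 0`; `L^cl_{k+1}` consists of the compositions
`g ∘ h` with `g` a left-closing cellular automaton and `h` in `R^cl_k`, and `R^cl_{k+1}` of the
compositions `g ∘ h` with `g` a right-closing cellular automaton and `h` in `L^cl_k`. -/
def Lev (S : Type) : ℕ → Bool → Set ((ℤ → S) → (ℤ → S))
  | 0, _ => {id}
  | k + 1, true => {f | ∃ g h, IsCA g ∧ LeftClosing g ∧ h ∈ Lev S k false ∧ f = g ∘ h}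
  | k + 1, false => {f | ∃ g h, IsCA g ∧ RightClosing g ∧ h ∈ Lev S k true ∧ f = g ∘ h}

end Pool.Agent.H624CA
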