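import Mathlib

/-!
The finite tables of the five-letter automaton (pinwheel tiling of a 3 x 3 square).
-/

set_option maxRecDepth 100000

namespace Pool.Agent.H624CA

/-- the pinwheel tiling of the 3 x 3 square: the tile that covers a cell -/
def tile : Fin 3 → Fin 3 → Fin 5 := ![![1, 0, 1], ![2, 3, 3], ![2, 0, 4]]

/-- the index read by the left neighbour -/
def rd : Fin 5 → Fin 3 := ![1, 0, 0, 1, 2]

/-- the index passed to the right neighbour -/
def ps : Fin 5 → Fin 3 := ![0, 0, 1, 1, 2]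

/-- the output letter for the tiles before and after the letter, and the letter -/
def tab : Fin 5 → Fin 5 → Fin 5 → Fin 5 :=
  ![![![0, 0, 0, 0, 0], ![3, 0, 0, 0, 0], ![0, 0, 0, 4, 0], ![0, 0, 0, 4, 0], ![0, 0, 0, 0, 0]],
    ![![0, 2, 0, 0, 3], ![0, 0, 0, 0, 0], ![0, 0, 1, 0, 2], ![0, 0, 1, 0, 0], ![0, 0, 0, 0, 2]],
    ![![0, 2, 0, 0, 0], ![0, 2, 0, 0, 0], ![0, 0, 0, 0, 0], ![0, 0, 1, 0, 0], ![0, 0, 0, 0, 0]],
    ![![3, 0, 0, 0, 4], ![3, 0, 0, 0, 0], ![0, 0, 0, 1, 4], ![0, 0, 0, 0, 0], ![0, 0, 0, 0, 4]],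
    ![![0, 0, 0, 0, 3], ![0, 0, 0, 0, 0], ![0, 0, 0, 0, 1], ![0, 0, 0, 0, 0], ![0, 0, 0, 0, 0]]]

def inU (u : Fin 3) (p : Fin 5) : Prop := ∃ v, tile u v = p
def inV (v : Fin 3) (p : Fin 5) : Prop := ∃ u, tile u v = p

instance (u : Fin 3) (p : Fin 5) : Decidable (inU u p) := inferInstanceAs (Decidable (∃ v, tile u v = p))
instance (v : Fin 3) (p : Fin 5) : Decidable (inV v p) := inferInstanceAs (Decidable (∃ u, tile u v = p))

def del : Fin 3 → Fin 5 → Fin 3 := ![![0, 1, 2, 0, 1], ![1, 1, 0, 0, 2], ![2, 1, 0, 0, 1]]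
def eps : Fin 5 → Fin 3 → Fin 3 := ![![0, 1, 2], ![2, 0, 0], ![0, 0, 0], ![1, 2, 1], ![1, 1, 1]]

lemma tile_self : ∀ e, tile (ps e) (rd e) = e := by decide

lemma tab_self : ∀ e, tab e e e = 0 := by decide

lemma tab_zero : ∀ (j0 : Fin 3) (e : Fin 5) (i1 : Fin 3),
    tab (tile j0 (rd e)) (tile (ps e) i1) e = 0 →
      tile j0 (rd e) = e ∧ tile (ps e) i1 = e := by decide

lemma cell_unique : ∀ (u v : Fin 3) (p : Fin 5), inU u p → inV v p → p = tile u v := by decide

lemma stepU : ∀ (u j0 : Fin 3) (e : Fin 5) (i1 : Fin 3), inU u (tile j0 (rd e)) →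
    inU (del u (tab (tile j0 (rd e)) (tile (ps e) i1) e)) (tile (ps e) i1) := by decide

lemma stepV : ∀ (v j0 : Fin 3) (e : Fin 5) (i1 : Fin 3), inV v (tile (ps e) i1) →
    inV (eps (tab (tile j0 (rd e)) (tile (ps e) i1) e) v) (tile j0 (rd e)) := by decide

lemma tab_inj : ∀ (j0 : Fin 3) (e : Fin 5) (i1 : Fin 3) (j0' : Fin 3) (e' : Fin 5) (i1' : Fin 3),
    tile j0 (rd e) = tile j0' (rd e') → tile (ps e) i1 = tile (ps e') i1' →
    tab (tile j0 (rd e)) (tile (ps e) i1) e = tab (tile j0' (rd e')) (tile (ps e') i1') e' →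
      e = e' := by decide

/-- a letter that can be read in the tile `p` but not in the tile `q` -/
def RowSep (p q : Fin 5) : Prop := ∃ e p' : Fin 5, tile (ps p) (rd e) = p ∧ tile (ps e) (rd p') = p' ∧
  ∀ (e' : Fin 5) (i' : Fin 3), tile (ps q) (rd e') = q →
    tab q (tile (ps e') i') e' ≠ tab p p' e

def ColSep (p q : Fin 5) : Prop := ∃ e p' : Fin 5, tile (ps p') (rd e) = p' ∧ tile (ps e) (rd p) = p ∧
  ∀ (e' : Fin 5) (j' : Fin 3), tile (ps e') (rd q) = q →
    tab (tile j' (rd e')) q e' ≠ tab p' p e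

instance (p q : Fin 5) : Decidable (RowSep p q) := by unfold RowSep; infer_instance
instance (p q : Fin 5) : Decidable (ColSep p q) := by unfold ColSep; infer_instance

lemma row_sep : ∀ p q : Fin 5, p ≠ q → RowSep p q ∨ RowSep q p := by decide

lemma col_sep : ∀ p q : Fin 5, p ≠ q → ColSep p q ∨ ColSep q p := by decide

/-- the five code words 001w1 of length seven -/
def bit : Fin 5 → ℕ → Bool := fun c j =>
  (![[false, false, true, false, true, false, true],
     [false, false, true, false, true, true, true],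
     [false, false, true, true, false, true, true],
     [false, false, true, true, true, false, true],
     [false, false, true, true, true, true, true]] c).getD j false

lemma bit_inj : ∀ c d : Fin 5, (∀ j : Fin 7, bit c j = bit d j) → c = d := by decide

lemma bit_overlap : ∀ (c d : Fin 5) (k : Fin 7), k ≠ 0 →
    ∃ j : Fin 7, (j : ℕ) + k < 7 ∧ bit c (j + k) ≠ bit d j := by decide

end Pool.Agent.H624CA
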