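import Pool.Agent.H624CA.Myhill
import Pool.Agent.H624CA.Table

/-!
A cellular automaton on any alphabet with two letters that is surjective and not a composition of
one-sided closing ones.
-/

namespace Pool.Agent.H624CA

section
attribute [local instance] Classical.propDecidable

variable {S : Type} (s0 s1 : S)

/-- letters of the code words -/
noncomputable def W (c : Fin 5) (j : ℕ) : S := if bit c j = true then s1 else s0

/-- the code word `c` occurs in `x` at position `a` -/
def Is (x : ℤ → S) (a : ℤ) (c : Fin 5) : Prop := ∀ j : ℕ, j < 7 → x (a + j) = W s0 s1 c j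

/-- the code word at position `a`, if there is one -/
noncomputable def blk (x : ℤ → S) (a : ℤ) : Option (Fin 5) :=
  if h : ∃ c, Is s0 s1 x a c then some h.choose else none

/-- index passed by the block on the left -/
def Jo : Option (Fin 5) → Fin 3
  | none => 0
  | some e => ps e

/-- index read by the block on the right -/
def Io : Option (Fin 5) → Fin 3
  | none => 0
  | some e => rd e

/-- the tile at position `a` -/
noncomputable def st (x : ℤ → S) (a : ℤ) : Fin 5 :=
  tile (Jo (blk s0 s1 x (a - 7))) (Io (blk s0 s1 x a))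

/-- the new letter of a block -/
noncomputable def out (x : ℤ → S) (a : ℤ) (e : Fin 5) : Fin 5 :=
  tab (st s0 s1 x a) (st s0 s1 x (a + 7)) e

/-- the cellular automaton -/
noncomputable def F (x : ℤ → S) : ℤ → S := fun i =>
  if h : ∃ p : ℕ × Fin 5, p.1 < 7 ∧ Is s0 s1 x (i - p.1) p.2 then
    W s0 s1 (out s0 s1 x (i - h.choose.1) h.choose.2) h.choose.1 else x i

variable {s0 s1}

lemma W_eq_iff (h01 : s0 ≠ s1) {c d : Fin 5} {i j : ℕ} :
    W s0 s1 c i = W s0 s1 d j ↔ bit c i = bit d j := by
  unfold W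
  constructor
  · intro h
    by_cases h1 : bit c i = true <;> by_cases h2 : bit d j = true
    · rw [h1, h2]
    · simp only [h1, h2, if_true] at h
      exact absurd h.symm (by simpa using h01)
    · simp only [h1, h2, if_true] at h
      exact absurd h (by simpa using h01)
    · rw [Bool.not_eq_true] at h1 h2
      rw [h1, h2]
  · intro h; rw [h]

lemma Is.unique (h01 : s0 ≠ s1) {x : ℤ → S} {a : ℤ} {c d : Fin 5} (hc : Is s0 s1 x a c)
    (hd : Is s0 s1 x a d) : c = d := by
  refine bit_inj c d fun j => ?_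
  rw [← W_eq_iff h01, ← hc j j.2, ← hd j j.2]

lemma Is.overlap (h01 : s0 ≠ s1) {x : ℤ → S} {a b : ℤ} {c d : Fin 5} (hc : Is s0 s1 x a c)
    (hd : Is s0 s1 x b d) (h1 : a ≤ b) (h2 : b < a + 7) : a = b := by
  by_contra hne
  obtain ⟨k, hk⟩ := Int.eq_ofNat_of_zero_le (show 0 ≤ b - a by omega)
  have hk7 : k < 7 := by omega
  obtain ⟨j, hj, hb⟩ := bit_overlap c d ⟨k, hk7⟩ (by
    intro h; apply hne; have := congrArg Fin.val h; simp at this; omega)
  apply hb
  simp only at hj ⊢
  rw [← W_eq_iff h01, ← hc (j + k) hj, ← hd j j.2]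
  congr 1
  push_cast
  omega

lemma Is.overlap' (h01 : s0 ≠ s1) {x : ℤ → S} {a b : ℤ} {c d : Fin 5} (hc : Is s0 s1 x a c)
    (hd : Is s0 s1 x b d) (h1 : a < b + 7) (h2 : b < a + 7) : a = b := by
  rcases le_total a b with h | h
  · exact hc.overlap h01 hd h h2
  · exact (hd.overlap h01 hc h h1).symm

lemma blk_some (h01 : s0 ≠ s1) {x : ℤ → S} {a : ℤ} {c : Fin 5} :
    blk s0 s1 x a = some c ↔ Is s0 s1 x a c := by
  unfold blk
  constructor
  · intro h
    split_ifs at h with h'
    rw [← Option.some.inj h]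
    exact h'.choose_spec
  · intro h
    have h' : ∃ c, Is s0 s1 x a c := ⟨c, h⟩
    rw [dif_pos h']
    rw [h'.choose_spec.unique h01 h]

lemma blk_none {x : ℤ → S} {a : ℤ} : blk s0 s1 x a = none ↔ ∀ c, ¬ Is s0 s1 x a c := by
  unfold blk
  constructor
  · intro h c hc
    rw [dif_pos ⟨c, hc⟩] at h
    exact Option.some_ne_none _ h
  · intro h
    rw [dif_neg (by push Not; exact h)]

lemma blk_congr (h01 : s0 ≠ s1) {x y : ℤ → S} {a b : ℤ}
    (h : ∀ c, Is s0 s1 x a c ↔ Is s0 s1 y b c) : blk s0 s1 x a = blk s0 s1 y b := by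
  cases hx : blk s0 s1 x a with
  | none =>
    symm
    rw [blk_none] at hx ⊢
    intro c hc
    exact hx c ((h c).2 hc)
  | some c =>
    symm
    rw [blk_some h01] at hx ⊢
    exact (h c).1 hx

lemma F_in (h01 : s0 ≠ s1) {x : ℤ → S} {a : ℤ} {e : Fin 5} (h : Is s0 s1 x a e) {j : ℕ}
    (hj : j < 7) : F s0 s1 x (a + j) = W s0 s1 (out s0 s1 x a e) j := by
  have hex : ∃ p : ℕ × Fin 5, p.1 < 7 ∧ Is s0 s1 x (a + j - p.1) p.2 :=
    ⟨(j, e), hj, by simpa using h⟩
  unfold F
  rw [dif_pos hex]
  obtain ⟨h1, h2⟩ := hex.choose_spec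
  have h3 : a = a + j - (hex.choose.1 : ℤ) := h.overlap' h01 h2 (by omega) (by omega)
  have h4 : hex.choose.1 = j := by omega
  rw [← h3] at h2 ⊢
  rw [h4, h2.unique h01 h]

lemma F_out {x : ℤ → S} {i : ℤ} (h : ∀ (j : ℕ) (e : Fin 5), j < 7 → ¬ Is s0 s1 x (i - j) e) :
    F s0 s1 x i = x i := by
  unfold F
  rw [dif_neg]
  rintro ⟨⟨j, e⟩, h1, h2⟩
  exact h j e h1 h2

lemma Is_F_of (h01 : s0 ≠ s1) {x : ℤ → S} {a : ℤ} {e : Fin 5} (h : Is s0 s1 x a e) :
    Is s0 s1 (F s0 s1 x) a (out s0 s1 x a e) := fun _ hj => F_in h01 h hj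

lemma Is_F (h01 : s0 ≠ s1) {x : ℤ → S} {a : ℤ} {c : Fin 5} :
    Is s0 s1 (F s0 s1 x) a c ↔ ∃ e, Is s0 s1 x a e ∧ out s0 s1 x a e = c := by
  constructor
  · intro hc
    by_cases hex : ∃ (j j' : ℕ) (e : Fin 5), j < 7 ∧ j' < 7 ∧ Is s0 s1 x (a + j - j') e
    · obtain ⟨j, j', e, hj, hj', he⟩ := hex
      have h1 := Is_F_of h01 he
      have h2 : a = a + j - j' := hc.overlap' h01 h1 (by omega) (by omega)
      rw [← h2] at he h1
      exact ⟨e, he, h1.unique h01 hc⟩
    · exfalso
      push Not at hex
      refine hex 0 0 c (by norm_num) (by norm_num) ?_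
      simp only [Nat.cast_zero, add_zero, sub_zero]
      intro j hj
      rw [← hc j hj]
      symm
      refine F_out fun j' e hj' => ?_
      exact hex j j' e hj hj'
  · rintro ⟨e, he, rfl⟩
    exact Is_F_of h01 he

lemma Is_congr {x y : ℤ → S} {a : ℤ} {c : Fin 5} (h : ∀ j, a ≤ j → j < a + 7 → x j = y j)
    (hx : Is s0 s1 x a c) : Is s0 s1 y a c := by
  intro j hj
  rw [← h (a + j) (by omega) (by omega)]
  exact hx j hj

lemma F_loc (h01 : s0 ≠ s1) : Loc (F s0 s1) 20 := by
  refine ⟨by norm_num, fun x y i hxy => ?_⟩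
  have hI : ∀ b, i - 20 ≤ b → b ≤ i + 14 → ∀ c, Is s0 s1 x b c ↔ Is s0 s1 y b c := by
    intro b h1 h2 c
    constructor
    · exact Is_congr fun j h3 h4 => hxy j (by omega) (by omega)
    · exact Is_congr fun j h3 h4 => (hxy j (by omega) (by omega)).symm
  have hst : ∀ b, i - 13 ≤ b → b ≤ i + 14 → st s0 s1 x b = st s0 s1 y b := by
    intro b h1 h2
    unfold st
    rw [blk_congr h01 (hI (b - 7) (by omega) (by omega)), blk_congr h01 (hI b (by omega) (by omega))]
  by_cases hex : ∃ (j : ℕ) (e : Fin 5), j < 7 ∧ Is s0 s1 x (i - j) e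
  · obtain ⟨j, e, hj, he⟩ := hex
    have he' := (hI (i - j) (by omega) (by omega) e).1 he
    have h1 := F_in h01 he hj
    have h2 := F_in h01 he' hj
    rw [sub_add_cancel] at h1 h2
    rw [h1, h2]
    unfold out
    rw [hst (i - j) (by omega) (by omega), hst (i - j + 7) (by omega) (by omega)]
  · push Not at hex
    rw [F_out fun j e hj => hex j e hj, F_out fun j e hj h => ?_]
    · exact hxy i (by omega) (by omega)
    · exact hex j e hj ((hI (i - j) (by omega) (by omega) e).2 h)

lemma Is_shift {x : ℤ → S} {a : ℤ} {c : Fin 5} :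
    Is s0 s1 (shift x) a c ↔ Is s0 s1 x (a + 1) c := by
  unfold Is shift
  constructor
  · intro h j hj; rw [← h j hj]; congr 1; ring
  · intro h j hj; rw [← h j hj]; congr 1; ring

lemma F_comm (h01 : s0 ≠ s1) : Comm (F s0 s1) := by
  intro x
  funext i
  have hblk : ∀ a, blk s0 s1 (shift x) a = blk s0 s1 x (a + 1) := fun a =>
    blk_congr h01 fun c => Is_shift
  have hst : ∀ a, st s0 s1 (shift x) a = st s0 s1 x (a + 1) := by
    intro a
    unfold st
    rw [hblk, hblk]
    congr 3
    ring
  show F s0 s1 (shift x) i = F s0 s1 x (i + 1)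
  by_cases hex : ∃ (j : ℕ) (e : Fin 5), j < 7 ∧ Is s0 s1 (shift x) (i - j) e
  · obtain ⟨j, e, hj, he⟩ := hex
    have he' := Is_shift.1 he
    have h1 := F_in h01 he hj
    have h2 := F_in h01 he' hj
    rw [sub_add_cancel] at h1
    have e1 : i - (j : ℤ) + 1 + j = i + 1 := by ring
    rw [e1] at h2
    rw [h1, h2]
    unfold out
    rw [hst, hst]
    congr 3
    ring
  · push Not at hex
    rw [F_out fun j e hj => hex j e hj, F_out fun j e hj h => ?_]
    · rfl
    · refine hex j e hj (Is_shift.2 ?_)
      convert h using 1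
      ring

/-- the letters of two configurations with the same image that agree outside a finite set -/
lemma F_pre (h01 : s0 ≠ s1) (x y : ℤ → S) (hN : ∃ N : ℤ, ∀ i, (i ≤ -N ∨ N ≤ i) → x i = y i)
    (hxy : F s0 s1 x = F s0 s1 y) : x = y := by
  obtain ⟨N, hN⟩ := hN
  -- block positions coincide
  have hpos : ∀ a, (∃ e, Is s0 s1 x a e) ↔ (∃ e, Is s0 s1 y a e) := by
    intro a
    constructor
    · rintro ⟨e, he⟩
      have := Is_F_of h01 he
      rw [hxy, Is_F h01] at this
      obtain ⟨e', h, _⟩ := this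
      exact ⟨e', h⟩
    · rintro ⟨e, he⟩
      have := Is_F_of h01 he
      rw [← hxy, Is_F h01] at this
      obtain ⟨e', h, _⟩ := this
      exact ⟨e', h⟩
  have hnone : ∀ a, blk s0 s1 x a = none → blk s0 s1 y a = none := by
    intro a h
    rw [blk_none] at h ⊢
    intro c hc
    obtain ⟨e, he⟩ := (hpos a).2 ⟨c, hc⟩
    exact h e he
  have hsome : ∀ a e, blk s0 s1 x a = some e → ∃ e', blk s0 s1 y a = some e' ∧
      out s0 s1 x a e = out s0 s1 y a e' := by
    intro a e h
    rw [blk_some h01] at h
    obtain ⟨e', he'⟩ := (hpos a).1 ⟨e, h⟩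
    refine ⟨e', (blk_some h01).2 he', ?_⟩
    have h1 := Is_F_of h01 h
    have h2 := Is_F_of h01 he'
    rw [← hxy] at h2
    exact h1.unique h01 h2
  have hU : ∀ (k : ℕ) (a : ℤ), a ≤ -N - 14 + k →
      ∃ u, inU u (st s0 s1 x a) ∧ inU u (st s0 s1 y a) := by
    intro k
    induction k using Nat.strong_induction_on with
    | _ k ih =>
      intro a ha
      by_cases hfar : a ≤ -N - 7
      · have h1 : st s0 s1 x a = st s0 s1 y a := by
          unfold st
          rw [blk_congr h01 (x := x) (y := y) (a := a - 7) (b := a - 7), blk_congr h01 (x := x) (y := y) (a := a) (b := a)]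
          · intro c
            constructor
            · exact Is_congr fun j h3 h4 => hN j (by omega)
            · exact Is_congr fun j h3 h4 => (hN j (by omega)).symm
          · intro c
            constructor
            · exact Is_congr fun j h3 h4 => hN j (by omega)
            · exact Is_congr fun j h3 h4 => (hN j (by omega)).symm
        refine ⟨Jo (blk s0 s1 x (a - 7)), ⟨_, rfl⟩, ?_⟩
        rw [← h1]
        exact ⟨_, rfl⟩
      · cases hb : blk s0 s1 x (a - 7) with
        | none =>
          refine ⟨0, ⟨Io (blk s0 s1 x a), ?_⟩, ⟨Io (blk s0 s1 y a), ?_⟩⟩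
          · unfold st; rw [hb]; rfl
          · unfold st; rw [hnone _ hb]; rfl
        | some e =>
          obtain ⟨e', he', hout⟩ := hsome _ e hb
          obtain ⟨u, hu1, hu2⟩ := ih (k - 7) (by omega) (a - 7) (by omega)
          have e7 : a - 7 + 7 = a := by ring
          refine ⟨del u (out s0 s1 x (a - 7) e), ?_, ?_⟩
          · have := stepU u (Jo (blk s0 s1 x (a - 7 - 7))) e (Io (blk s0 s1 x a))
            unfold out
            unfold st at hu1 ⊢
            rw [e7]
            simp only [hb] at hu1 ⊢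
            exact this hu1
          · rw [hout]
            have := stepU u (Jo (blk s0 s1 y (a - 7 - 7))) e' (Io (blk s0 s1 y a))
            unfold out
            unfold st at hu2 ⊢
            rw [e7]
            simp only [he'] at hu2 ⊢
            exact this hu2
  have hV : ∀ (k : ℕ) (a : ℤ), N + 14 - k ≤ a →
      ∃ v, inV v (st s0 s1 x a) ∧ inV v (st s0 s1 y a) := by
    intro k
    induction k using Nat.strong_induction_on with
    | _ k ih =>
      intro a ha
      by_cases hfar : N + 7 ≤ a
      · have h1 : st s0 s1 x a = st s0 s1 y a := by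
          unfold st
          rw [blk_congr h01 (x := x) (y := y) (a := a - 7) (b := a - 7), blk_congr h01 (x := x) (y := y) (a := a) (b := a)]
          · intro c
            constructor
            · exact Is_congr fun j h3 h4 => hN j (by omega)
            · exact Is_congr fun j h3 h4 => (hN j (by omega)).symm
          · intro c
            constructor
            · exact Is_congr fun j h3 h4 => hN j (by omega)
            · exact Is_congr fun j h3 h4 => (hN j (by omega)).symm
        refine ⟨Io (blk s0 s1 x a), ⟨_, rfl⟩, ?_⟩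
        rw [← h1]
        exact ⟨_, rfl⟩
      · cases hb : blk s0 s1 x a with
        | none =>
          refine ⟨0, ⟨Jo (blk s0 s1 x (a - 7)), ?_⟩, ⟨Jo (blk s0 s1 y (a - 7)), ?_⟩⟩
          · unfold st; rw [hb]; rfl
          · unfold st; rw [hnone _ hb]; rfl
        | some e =>
          obtain ⟨e', he', hout⟩ := hsome _ e hb
          obtain ⟨v, hv1, hv2⟩ := ih (k - 7) (by omega) (a + 7) (by omega)
          have e7 : a + 7 - 7 = a := by ring
          refine ⟨eps (out s0 s1 x a e) v, ?_, ?_⟩
          · have := stepV v (Jo (blk s0 s1 x (a - 7))) e (Io (blk s0 s1 x (a + 7)))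
            unfold out
            unfold st at hv1 ⊢
            rw [e7] at hv1 ⊢
            simp only [hb] at hv1 ⊢
            exact this hv1
          · rw [hout]
            have := stepV v (Jo (blk s0 s1 y (a - 7))) e' (Io (blk s0 s1 y (a + 7)))
            unfold out
            unfold st at hv2 ⊢
            rw [e7] at hv2 ⊢
            simp only [he'] at hv2 ⊢
            exact this hv2
  have hst : ∀ a, st s0 s1 x a = st s0 s1 y a := by
    intro a
    obtain ⟨u, hu1, hu2⟩ := hU (a + N + 14).toNat a (by omega)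
    obtain ⟨v, hv1, hv2⟩ := hV (N + 14 - a).toNat a (by omega)
    rw [cell_unique u v _ hu1 hv1, cell_unique u v _ hu2 hv2]
  funext i
  by_cases hex : ∃ (j : ℕ) (e : Fin 5), j < 7 ∧ Is s0 s1 x (i - j) e
  · obtain ⟨j, e, hj, he⟩ := hex
    have hb := (blk_some h01).2 he
    obtain ⟨e', he', hout⟩ := hsome _ e hb
    have : e = e' := by
      have h1 := hst (i - j)
      have h2 := hst (i - j + 7)
      have e7 : i - (j : ℤ) + 7 - 7 = i - j := by ring
      unfold out at hout
      unfold st at h1 h2 hout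
      rw [e7] at h2 hout
      simp only [hb, he'] at h1 h2 hout
      exact tab_inj _ e _ _ e' _ h1 h2 hout
    subst this
    have hy := (blk_some h01).1 he'
    have h1 := he j hj
    have h2 := hy j hj
    rw [sub_add_cancel] at h1 h2
    rw [h1, h2]
  · push Not at hex
    have h1 : F s0 s1 x i = x i := F_out fun j e hj => hex j e hj
    have h2 : F s0 s1 y i = y i := F_out fun j e hj h => by
      obtain ⟨e', he'⟩ := (hpos _).2 ⟨e, h⟩
      exact hex j e' hj he'
    rw [← h1, ← h2, hxy]

lemma F_surj [Finite S] (h01 : s0 ≠ s1) : Function.Surjective (F s0 s1) :=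
  myhill (F_loc h01) (F_comm h01) (F_pre h01)

end

end Pool.Agent.H624CA
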