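import Pool.Agent.H624CA.Core

/-!
The obstruction for compositions of one-sided closing maps.
-/

namespace Pool.Agent.H624CA

variable {A : Type}

/-- reflection of a configuration -/
def rv (x : ℤ → A) : ℤ → A := fun i => x (-i)

/-- reflection of a map -/
def rh (h : (ℤ → A) → (ℤ → A)) : (ℤ → A) → (ℤ → A) := fun x => rv (h (rv x))

lemma rv_rv (x : ℤ → A) : rv (rv x) = x := by funext i; simp [rv]

lemma rv_cst (a : A) : rv (cst a) = cst a := rfl

lemma rv_inj {x y : ℤ → A} (h : rv x = rv y) : x = y := by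
  rw [← rv_rv x, h, rv_rv]

lemma LA_rv {x : ℤ → A} {a : A} : LA (rv x) a ↔ RA x a := by
  constructor
  · rintro ⟨N, h⟩
    refine ⟨-N, fun i hi => ?_⟩
    have := h (-i) (by omega)
    simpa [rv] using this
  · rintro ⟨N, h⟩
    exact ⟨-N, fun i hi => h (-i) (by omega)⟩

lemma RA_rv {x : ℤ → A} {a : A} : RA (rv x) a ↔ LA x a := by
  rw [← LA_rv, rv_rv]

lemma Loc.rh {h : (ℤ → A) → (ℤ → A)} {r : ℤ} (L : Loc h r) : Loc (rh h) r := by
  refine ⟨L.1, fun x y i hxy => ?_⟩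
  exact L.2 (rv x) (rv y) (-i) fun j h1 h2 => hxy (-j) (by omega) (by omega)

lemma Comm.rh {h : (ℤ → A) → (ℤ → A)} (H : Comm h) : Comm (rh h) := by
  intro x
  have h1 : rv (shift x) = fun i => rv x (i + (-1)) := by
    funext i; simp only [rv, shift]; congr 1; ring
  funext i
  simp only [Pool.Agent.H624CA.rh]
  rw [h1, H.int]
  simp only [rv, shift]
  congr 1; ring

lemma surj_rh {h : (ℤ → A) → (ℤ → A)} (H : Function.Surjective h) :
    Function.Surjective (rh h) := by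
  intro y
  obtain ⟨x, hx⟩ := H (rv y)
  exact ⟨rv x, by simp only [rh, rv_rv, hx]⟩

/-- the facts about `f` used by the obstruction -/
structure Data (f : (ℤ → A) → (ℤ → A)) (o : A) (P : Set A) : Prop where
  A0 : ∀ s ∈ P, f (cst s) = cst o
  A1 : ∀ (x : ℤ → A) (a b : ℤ), a ≤ b → (∀ i, a ≤ i → i ≤ b → f x i = o) →
      ∃ s ∈ P, ∀ i, a ≤ i → i ≤ b → x i = s
  A2R : ∀ s ∈ P, ∀ t ∈ P, s ≠ t → ∃ x, ∃ u ∈ P, RA x u ∧
    ((LA x s ∧ ¬ ∃ y, LA y t ∧ f y = f x) ∨ (LA x t ∧ ¬ ∃ y, LA y s ∧ f y = f x))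
  A2L : ∀ s ∈ P, ∀ t ∈ P, s ≠ t → ∃ x, ∃ u ∈ P, LA x u ∧
    ((RA x s ∧ ¬ ∃ y, RA y t ∧ f y = f x) ∨ (RA x t ∧ ¬ ∃ y, RA y s ∧ f y = f x))

/-- compositions of local, shift-commuting, surjective, one-sided closing maps -/
inductive Comp : ((ℤ → A) → (ℤ → A)) → Prop
  | id : Comp id
  | step (g h : (ℤ → A) → (ℤ → A)) : (∃ r, Loc g r) → Comm g → Function.Surjective g →
      (RightClosing g ∨ LeftClosing g) → Comp h → Comp (g ∘ h)

lemma Loc.comp {g h : (ℤ → A) → (ℤ → A)} {r s : ℤ} (Lg : Loc g r) (Lh : Loc h s) :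
    Loc (g ∘ h) (r + s) := by
  refine ⟨by have := Lg.1; have := Lh.1; omega, fun x y i hxy => ?_⟩
  refine Lg.2 _ _ _ fun j h1 h2 => Lh.2 _ _ _ fun k h3 h4 => hxy k (by omega) (by omega)

lemma Comp.props {h : (ℤ → A) → (ℤ → A)} (H : Comp h) :
    (∃ r, Loc h r) ∧ Comm h ∧ Function.Surjective h := by
  induction H with
  | id => exact ⟨⟨0, le_rfl, fun x y i h => h i (by omega) (by omega)⟩, fun x => rfl,
      fun x => ⟨x, rfl⟩⟩
  | step g h Lg Cg sg _ _ ih =>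
    obtain ⟨r, Lg⟩ := Lg
    obtain ⟨⟨s, Lh⟩, Ch, sh⟩ := ih
    refine ⟨⟨_, Lg.comp Lh⟩, fun x => ?_, sg.comp sh⟩
    simp only [Function.comp]
    rw [Ch, Cg]

theorem comp_inj [Finite A] {f : (ℤ → A) → (ℤ → A)} {o : A} {P : Set A} (D : Data f o P)
    {h : (ℤ → A) → (ℤ → A)} (H : Comp h) : ∀ φ : (ℤ → A) → (ℤ → A), (∃ r, Loc φ r) → Comm φ →
      (∀ x, f x = φ (h x)) → ∀ s ∈ P, ∀ t ∈ P, h (cst s) = h (cst t) → s = t := by
  induction H with
  | id =>
    intro φ _ _ _ s _ t _ hst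
    exact congrFun hst 0
  | step g h Lg Cg sg hg Hh ih =>
    rintro φ ⟨rφ, Lφ⟩ Cφ hf s hs t ht hst
    obtain ⟨⟨rh0, Lh⟩, Ch, sh⟩ := Hh.props
    obtain ⟨rg, Lg⟩ := Lg
    have Cgh : Comm (g ∘ h) := by intro x; simp only [Function.comp]; rw [Ch, Cg]
    have inj : ∀ s ∈ P, ∀ t ∈ P, h (cst s) = h (cst t) → s = t := by
      refine ih (φ ∘ g) ⟨_, Lφ.comp Lg⟩ ?_ hf
      intro x; simp only [Function.comp]; rw [Cg, Cφ]
    have hL : ∀ {x : ℤ → A} {a : A}, LA x a → ∃ N : ℤ, ∀ i, i ≤ N → h x i = h (cst a) 0 := by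
      rintro x a ⟨N, hN⟩
      have := Lh.1
      exact ⟨N - rh0, fun i hi => loc_cst Lh Ch fun j _ h2 => hN j (by omega)⟩
    have hR : ∀ {x : ℤ → A} {a : A}, RA x a → ∃ N : ℤ, ∀ i, N ≤ i → h x i = h (cst a) 0 := by
      rintro x a ⟨N, hN⟩
      have := Lh.1
      exact ⟨N + rh0, fun i hi => loc_cst Lh Ch fun j h1 _ => hN j (by omega)⟩
    have cc : ∀ {a b : A}, h (cst a) 0 = h (cst b) 0 → h (cst a) = h (cst b) := by
      intro a b hab
      rw [Ch.cst_eq a, Ch.cst_eq b, hab]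
    rcases hg with hg | hg
    · -- right closing
      by_contra hne
      have Rc : ∀ (x y : ℤ → A), ∀ s ∈ P, ∀ t ∈ P, ∀ t' ∈ P, LA x s → LA y s → RA x t →
          RA y t' → (g ∘ h) x = (g ∘ h) y → t = t' := by
        intro x y s _ t ht t' ht' hx hy hxt hyt hxy
        obtain ⟨N1, h1⟩ := hL hx
        obtain ⟨N2, h2⟩ := hL hy
        have e : h x = h y := hg _ _ ⟨min N1 N2, fun i hi => by
          rw [h1 i (le_trans hi (min_le_left _ _)), h2 i (le_trans hi (min_le_right _ _))]⟩ hxy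
        obtain ⟨M1, h3⟩ := hR hxt
        obtain ⟨M2, h4⟩ := hR hyt
        refine inj t ht t' ht' (cc ?_)
        rw [← h3 (max M1 M2) (le_max_left _ _), ← h4 (max M1 M2) (le_max_right _ _), e]
      obtain ⟨x, u, hu, hxu, hcase⟩ := D.A2R s hs t ht hne
      rcases hcase with ⟨hxs, hno⟩ | ⟨hxt, hno⟩
      · exact core1 (h := g ∘ h) hf (Lg.comp Lh) Lφ Cgh Cφ (sg.comp sh) D.A0 D.A1 Rc hs ht hst
          hxs hu hxu hno
      · exact core1 (h := g ∘ h) hf (Lg.comp Lh) Lφ Cgh Cφ (sg.comp sh) D.A0 D.A1 Rc ht hs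
          hst.symm hxt hu hxu hno
    · -- left closing
      by_contra hne
      have Rc : ∀ (x y : ℤ → A), ∀ s ∈ P, ∀ t ∈ P, ∀ t' ∈ P, LA x s → LA y s → RA x t →
          RA y t' → rh (g ∘ h) x = rh (g ∘ h) y → t = t' := by
        intro x y s _ t ht t' ht' hx hy hxt hyt hxy
        have hx' := RA_rv.2 hx
        have hy' := RA_rv.2 hy
        have hxt' := LA_rv.2 hxt
        have hyt' := LA_rv.2 hyt
        have hxy' : g (h (rv x)) = g (h (rv y)) := rv_inj hxy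
        obtain ⟨N1, h1⟩ := hR hx'
        obtain ⟨N2, h2⟩ := hR hy'
        have e : h (rv x) = h (rv y) := hg _ _ ⟨max N1 N2, fun i hi => by
          rw [h1 i (le_trans (le_max_left _ _) hi), h2 i (le_trans (le_max_right _ _) hi)]⟩ hxy'
        obtain ⟨M1, h3⟩ := hL hxt'
        obtain ⟨M2, h4⟩ := hL hyt'
        refine inj t ht t' ht' (cc ?_)
        rw [← h3 (min M1 M2) (min_le_left _ _), ← h4 (min M1 M2) (min_le_right _ _), e]
      have hf' : ∀ x, rh f x = rh φ (rh (g ∘ h) x) := by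
        intro x
        simp only [rh, rv_rv]
        rw [hf]
      have A0' : ∀ s ∈ P, rh f (cst s) = cst o := by
        intro s hs
        simp only [rh, rv_cst, D.A0 s hs]
      have A1' : ∀ (x : ℤ → A) (a b : ℤ), a ≤ b → (∀ i, a ≤ i → i ≤ b → rh f x i = o) →
          ∃ s ∈ P, ∀ i, a ≤ i → i ≤ b → x i = s := by
        intro x a b hab hx
        obtain ⟨s, hs, hst⟩ := D.A1 (rv x) (-b) (-a) (by omega) fun i h1 h2 => by
          have := hx (-i) (by omega) (by omega)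
          simpa [rh, rv] using this
        refine ⟨s, hs, fun i h1 h2 => ?_⟩
        have := hst (-i) (by omega) (by omega)
        simpa [rv] using this
      have hst' : rh (g ∘ h) (cst s) = rh (g ∘ h) (cst t) := by
        simp only [rh, rv_cst, hst]
      have key : ∀ {x : ℤ → A} {b : A}, (¬ ∃ y, RA y b ∧ f y = f x) →
          ¬ ∃ y, LA y b ∧ rh f y = rh f (rv x) := by
        rintro x b hno ⟨y, hy, hyx⟩
        refine hno ⟨rv y, RA_rv.2 hy, ?_⟩
        have := rv_inj hyx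
        rwa [rv_rv] at this
      obtain ⟨x, u, hu, hxu, hcase⟩ := D.A2L s hs t ht hne
      rcases hcase with ⟨hxs, hno⟩ | ⟨hxt, hno⟩
      · exact core1 (h := rh (g ∘ h)) hf' (Lg.comp Lh).rh Lφ.rh Cgh.rh Cφ.rh
          (surj_rh (sg.comp sh)) A0' A1' Rc hs ht hst' (LA_rv.2 hxs) hu (RA_rv.2 hxu) (key hno)
      · exact core1 (h := rh (g ∘ h)) hf' (Lg.comp Lh).rh Lφ.rh Cgh.rh Cφ.rh
          (surj_rh (sg.comp sh)) A0' A1' Rc ht hs hst'.symm (LA_rv.2 hxt) hu (RA_rv.2 hxu)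
          (key hno)

/-- a map with the data above and two different elements of `P` is not a composition -/
theorem not_comp [Finite A] {f : (ℤ → A) → (ℤ → A)} {o : A} {P : Set A} (D : Data f o P)
    {s t : A} (hs : s ∈ P) (ht : t ∈ P) (hst : s ≠ t) : ¬ Comp f := by
  intro H
  refine hst (comp_inj D H id ⟨0, le_rfl, fun x y i h => h i (by omega) (by omega)⟩
    (fun x => rfl) (fun x => rfl) s hs t ht ?_)
  rw [D.A0 s hs, D.A0 t ht]

end Pool.Agent.H624CA
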