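import Pool.Agent.H624CA.Main

set_option linter.style.haveILetI false

/-!
Curtis-Hedlund-Lyndon for the full shift over the integers, and the theorem that a pre-injective
local map is surjective.
-/

namespace Pool.Agent.H624CA

variable {A : Type}

/-- continuity for the product of the discrete topologies -/
def Cont (f : (ℤ → A) → (ℤ → A)) : Prop :=
  @Continuous (ℤ → A) (ℤ → A) (@Pi.topologicalSpace ℤ (fun _ => A) (fun _ => ⊥))
    (@Pi.topologicalSpace ℤ (fun _ => A) (fun _ => ⊥)) f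

section
attribute [local instance] Classical.propDecidable

lemma isOpen_cyl [TopologicalSpace A] [DiscreteTopology A] (x : ℤ → A) (s : Finset ℤ) :
    IsOpen {y : ℤ → A | ∀ i ∈ s, y i = x i} := by
  have : {y : ℤ → A | ∀ i ∈ s, y i = x i} = ⋂ i ∈ s, (fun y : ℤ → A => y i) ⁻¹' {x i} := by
    ext y; simp
  rw [this]
  exact isOpen_biInter_finset fun i _ => (isOpen_discrete _).preimage (continuous_apply i)

lemma cont_of_loc {h : (ℤ → A) → (ℤ → A)} {r : ℤ} (L : Loc h r) : Cont h := by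
  letI : TopologicalSpace A := ⊥
  haveI : DiscreteTopology A := ⟨rfl⟩
  show Continuous h
  refine continuous_pi fun i => ?_
  rw [continuous_discrete_rng]
  intro a
  rw [isOpen_iff_forall_mem_open]
  intro x hx
  refine ⟨{y | ∀ j ∈ Finset.Icc (i - r) (i + r), y j = x j}, ?_, isOpen_cyl _ _, fun j _ => rfl⟩
  intro y hy
  have : h y i = h x i := L.2 _ _ _ fun j h1 h2 => hy j (Finset.mem_Icc.2 ⟨h1, h2⟩)
  simp only [Set.mem_preimage, Set.mem_singleton_iff] at hx ⊢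
  rw [this, hx]

lemma loc_of_cont [Finite A] {h : (ℤ → A) → (ℤ → A)} (H : Cont h) (C : Comm h) :
    ∃ r, Loc h r := by
  letI : TopologicalSpace A := ⊥
  haveI : DiscreteTopology A := ⟨rfl⟩
  haveI : CompactSpace A := Finite.compactSpace
  have H' : Continuous h := H
  have H0 : Continuous fun x => h x 0 := (continuous_apply (0 : ℤ)).comp H'
  let K : Set ((ℤ → A) × (ℤ → A)) := {p | h p.1 0 ≠ h p.2 0}
  have hKc : IsClosed K := by
    have : K = (fun p : (ℤ → A) × (ℤ → A) => (h p.1 0, h p.2 0)) ⁻¹' {q : A × A | q.1 ≠ q.2} := rfl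
    rw [this]
    exact (isClosed_discrete _).preimage ((H0.comp continuous_fst).prodMk (H0.comp continuous_snd))
  have hC : ∀ b : ℤ, IsClosed {p : (ℤ → A) × (ℤ → A) | p.1 b = p.2 b} := fun b =>
    isClosed_eq ((continuous_apply b).comp continuous_fst) ((continuous_apply b).comp continuous_snd)
  have hemp : K ∩ ⋂ b : ℤ, {p : (ℤ → A) × (ℤ → A) | p.1 b = p.2 b} = ∅ := by
    rw [Set.eq_empty_iff_forall_notMem]
    rintro ⟨x, y⟩ ⟨hx, hy⟩
    apply hx
    have : x = y := by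
      funext b
      exact Set.mem_iInter.mp hy b
    show h x 0 = h y 0
    rw [this]
  obtain ⟨T, hT⟩ := hKc.isCompact.elim_finite_subfamily_closed _ hC hemp
  have hT' : ∀ x y : ℤ → A, (∀ b ∈ T, x b = y b) → h x 0 = h y 0 := by
    intro x y hxy
    by_contra hne
    have : (x, y) ∈ K ∩ ⋂ b ∈ T, {p : (ℤ → A) × (ℤ → A) | p.1 b = p.2 b} := by
      refine ⟨hne, ?_⟩
      simp only [Set.mem_iInter]
      intro b hb
      exact hxy b hb
    rw [hT] at this
    exact this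
  obtain ⟨r, hr⟩ : ∃ r : ℕ, ∀ b ∈ T, b.natAbs ≤ r :=
    ⟨T.sup Int.natAbs, fun b hb => Finset.le_sup (f := Int.natAbs) hb⟩
  refine ⟨r, by omega, fun x y i hxy => ?_⟩
  have e1 : h x i = h (fun j => x (j + i)) 0 := by rw [C.int x i]; simp
  have e2 : h y i = h (fun j => y (j + i)) 0 := by rw [C.int y i]; simp
  rw [e1, e2]
  refine hT' _ _ fun b hb => hxy _ ?_ ?_
  · have := hr b hb; omega
  · have := hr b hb; omega

lemma exists_orphan [Finite A] {h : (ℤ → A) → (ℤ → A)} {r : ℤ} (L : Loc h r)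
    (hs : ¬ Function.Surjective h) :
    ∃ (w : ℤ → A) (M : ℕ), ∀ x, ∃ i : ℤ, -M ≤ i ∧ i ≤ M ∧ h x i ≠ w i := by
  letI : TopologicalSpace A := ⊥
  haveI : DiscreteTopology A := ⟨rfl⟩
  haveI : CompactSpace A := Finite.compactSpace
  have H' : Continuous h := cont_of_loc L
  simp only [Function.Surjective, not_forall, not_exists] at hs
  obtain ⟨w, hw⟩ := hs
  have hC : ∀ b : ℤ, IsClosed {x : ℤ → A | h x b = w b} := fun b =>
    isClosed_eq ((continuous_apply b).comp H') continuous_const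
  have hemp : (Set.univ : Set (ℤ → A)) ∩ ⋂ b : ℤ, {x : ℤ → A | h x b = w b} = ∅ := by
    rw [Set.eq_empty_iff_forall_notMem]
    rintro x ⟨_, hx⟩
    exact hw x (funext fun b => Set.mem_iInter.mp hx b)
  obtain ⟨T, hT⟩ := isCompact_univ.elim_finite_subfamily_closed _ hC hemp
  obtain ⟨r, hr⟩ : ∃ r : ℕ, ∀ b ∈ T, b.natAbs ≤ r :=
    ⟨T.sup Int.natAbs, fun b hb => Finset.le_sup (f := Int.natAbs) hb⟩
  refine ⟨w, r, fun x => ?_⟩
  by_contra hcon
  push Not at hcon
  have : x ∈ (Set.univ : Set (ℤ → A)) ∩ ⋂ b ∈ T, {x : ℤ → A | h x b = w b} := by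
    refine ⟨trivial, ?_⟩
    simp only [Set.mem_iInter]
    intro b hb
    have := hr b hb
    exact hcon b (by omega) (by omega)
  rw [hT] at this
  exact this

lemma pow_gap (Q C : ℕ) (hQ : 1 ≤ Q) (n0 : ℕ) : ∃ n, n0 ≤ n ∧ (Q - 1) ^ n * C < Q ^ n := by
  have hQ' : (0 : ℝ) < Q := by exact_mod_cast hQ
  have hy0 : (0 : ℝ) ≤ ((Q - 1 : ℕ) : ℝ) / Q := by positivity
  have hy1 : ((Q - 1 : ℕ) : ℝ) / Q < 1 := by
    rw [div_lt_one hQ']
    exact_mod_cast Nat.sub_lt hQ one_pos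
  obtain ⟨n, hn⟩ := exists_pow_lt_of_lt_one (show (0 : ℝ) < 1 / (C + 1) by positivity) hy1
  refine ⟨max n0 n, le_max_left _ _, ?_⟩
  have h1 : (((Q - 1 : ℕ) : ℝ) / Q) ^ (max n0 n) < 1 / (C + 1) :=
    lt_of_le_of_lt (pow_le_pow_of_le_one hy0 hy1.le (le_max_right _ _)) hn
  rw [div_pow, div_lt_div_iff₀ (by positivity) (by positivity), one_mul] at h1
  have h2 : ((Q - 1 : ℕ) : ℝ) ^ (max n0 n) * C ≤ ((Q - 1 : ℕ) : ℝ) ^ (max n0 n) * (C + 1) := by
    gcongr; linarith
  exact_mod_cast lt_of_le_of_lt h2 h1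

theorem myhill [Finite A] {h : (ℤ → A) → (ℤ → A)} {r : ℤ} (L : Loc h r) (C : Comm h)
    (pre : ∀ x y : ℤ → A, (∃ N : ℤ, ∀ i, (i ≤ -N ∨ N ≤ i) → x i = y i) → h x = h y → x = y) :
    Function.Surjective h := by
  classical
  by_contra hns
  obtain ⟨w, M, hw⟩ := exists_orphan L hns
  rcases isEmpty_or_nonempty A with hA | hne
  · exact hA.elim (w 0)
  obtain ⟨a0⟩ := id hne
  letI := Fintype.ofFinite A
  have hr := L.1
  obtain ⟨ρ, rfl⟩ := Int.eq_ofNat_of_zero_le hr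
  set ℓ : ℕ := 2 * M + 1 with hℓ
  let u : Fin ℓ → A := fun j => w (j - M)
  have horph : ∀ (x : ℤ → A) (k : ℤ), (fun j : Fin ℓ => h x (k + j)) ≠ u := by
    intro x k hk
    obtain ⟨i, h1, h2, h3⟩ := hw (fun t => x (t + (k + M)))
    apply h3
    rw [C.int x (k + M)]
    have := congrFun hk ⟨(i + M).toNat, by omega⟩
    simp only [u] at this
    have e : (((i + M).toNat : ℕ) : ℤ) = i + M := Int.toNat_of_nonneg (by omega)
    rw [e] at this
    have e2 : i + (k + M) = k + (i + M) := by ring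
    show h x (i + (k + M)) = w i
    rw [e2, this]
    congr 1; ring
  have hcard : 1 ≤ Fintype.card A ^ ℓ := Nat.one_le_pow _ _ Fintype.card_pos
  obtain ⟨n, hn, hlt⟩ := pow_gap (Fintype.card A ^ ℓ) (Fintype.card A ^ (2 * ρ)) hcard (2 * ρ)
  have hT : 2 * ρ ≤ n * ℓ := le_trans hn (Nat.le_mul_of_pos_right _ (by omega))
  let xf : (Fin (n * ℓ - 2 * ρ) → A) → (ℤ → A) := fun f i =>
    if hi : (ρ : ℤ) ≤ i ∧ i < (n * ℓ : ℕ) - (ρ : ℤ) then f ⟨(i - ρ).toNat, by omega⟩ else a0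
  let Φ : (Fin (n * ℓ - 2 * ρ) → A) → (Fin n → {v : Fin ℓ → A // v ≠ u}) := fun f k =>
    ⟨fun j => h (xf f) ((k : ℕ) * (ℓ : ℕ) + j), horph _ _⟩
  have hΦ : Function.Injective Φ := by
    intro f f' hff
    have hx : xf f = xf f' := by
      refine pre _ _ ⟨(n * ℓ : ℕ), fun i hi => ?_⟩ ?_
      · have h1 : ¬ ((ρ : ℤ) ≤ i ∧ i < (n * ℓ : ℕ) - (ρ : ℤ)) := by omega
        simp only [xf, h1, dif_neg, not_false_eq_true]
      · funext i
        by_cases hi : 0 ≤ i ∧ i < (n * ℓ : ℕ)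
        · obtain ⟨t, rfl⟩ := Int.eq_ofNat_of_zero_le hi.1
          have ht : t < n * ℓ := by have := hi.2; exact_mod_cast this
          have hl0 : 0 < ℓ := by omega
          have hk : t / ℓ < n := Nat.div_lt_of_lt_mul (by rw [mul_comm]; exact ht)
          have := congrArg Subtype.val (congrFun hff ⟨t / ℓ, hk⟩)
          have := congrFun this ⟨t % ℓ, Nat.mod_lt _ hl0⟩
          simp only [Φ] at this
          have e : ((t / ℓ : ℕ) : ℤ) * (ℓ : ℤ) + ((t % ℓ : ℕ) : ℤ) = (t : ℤ) := by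
            exact_mod_cast Nat.div_add_mod' t ℓ
          rw [e] at this
          exact this
        · refine L.2 _ _ _ fun j h1 h2 => ?_
          have h3 : ¬ ((ρ : ℤ) ≤ j ∧ j < (n * ℓ : ℕ) - (ρ : ℤ)) := by omega
          simp only [xf, h3, dif_neg, not_false_eq_true]
    funext j
    have := congrFun hx (j + ρ)
    have h3 : ((ρ : ℤ) ≤ (j : ℤ) + ρ ∧ (j : ℤ) + ρ < (n * ℓ : ℕ) - (ρ : ℤ)) := by
      have := j.2; omega
    simp only [xf, h3, and_self, dif_pos] at this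
    have e : (⟨((j : ℤ) + ρ - ρ).toNat, by have := j.2; omega⟩ : Fin (n * ℓ - 2 * ρ)) = j := by
      apply Fin.ext; simp
    simpa [e] using this
  have hc := Fintype.card_le_of_injective Φ hΦ
  have c1 : Fintype.card {v : Fin ℓ → A // v ≠ u} = Fintype.card A ^ ℓ - 1 := by
    have := Fintype.card_subtype_compl (fun v : Fin ℓ → A => v = u)
    rw [this]
    simp
  rw [Fintype.card_fun, Fintype.card_fun, c1, Fintype.card_fin, Fintype.card_fin] at hc
  have h5 : Fintype.card A ^ (n * ℓ) ≤ (Fintype.card A ^ ℓ - 1) ^ n * Fintype.card A ^ (2 * ρ) := by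
    calc Fintype.card A ^ (n * ℓ) = Fintype.card A ^ (n * ℓ - 2 * ρ) * Fintype.card A ^ (2 * ρ) := by
          rw [← pow_add]; congr 1; omega
      _ ≤ _ := Nat.mul_le_mul_right _ hc
  have h6 : (Fintype.card A ^ ℓ) ^ n = Fintype.card A ^ (n * ℓ) := by
    rw [← pow_mul, mul_comm]
  rw [h6] at hlt
  omega

end

end Pool.Agent.H624CA
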